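import Mathlib
import Pool.Agent.H55.Multi
import Pool.Agent.H55.Nec

/-!
# The maximum number of edge-disjoint 1-factors of a complete multipartite graph

We determine `μ(K(a_1,…,a_p))` for all `p ≥ 2` and all `1 ≤ a_1 ≤ … ≤ a_p`.
-/

set_option autoImplicit false
set_option linter.unusedSectionVars false

namespace Pool.Agent.Results.MP_6b0c0b_co.MuFormula

open Finset SimpleGraph Pool.Agent.H55

/-- The complete multipartite graph `K(a_1,…,a_p)` (the parts are indexed by `Fin p`). -/
abbrev K {p : ℕ} (a : Fin p → ℕ) : SimpleGraph (Σ i, Fin (a i)) :=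
  completeMultipartiteGraph (fun i => Fin (a i))

/-- `G` has `k` pairwise edge-disjoint 1-factors. -/
def HasDisjointOneFactors {V : Type*} (G : SimpleGraph V) (k : ℕ) : Prop :=
  ∃ M : Fin k → G.Subgraph, (∀ t, (M t).IsPerfectMatching) ∧
    ∀ s t, s ≠ t → Disjoint (M s).edgeSet (M t).edgeSet

/-- `m` is the largest number of pairwise edge-disjoint 1-factors of `G`, that is `μ(G) = m`. -/
def IsMu {V : Type*} (G : SimpleGraph V) (m : ℕ) : Prop :=
  IsGreatest {k | HasDisjointOneFactors G k} m

/-- The number of vertices `n = a_1 + … + a_p`. -/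
def order {p : ℕ} (a : Fin p → ℕ) : ℕ := ∑ i, a i

/-- The size of the largest part. -/
def largest {p : ℕ} (a : Fin p → ℕ) : ℕ := Finset.univ.sup a

/-- `w_j = a_j + a_{j+1} + … + a_p`. -/
def tail {p : ℕ} (a : Fin p → ℕ) (j : Fin p) : ℕ := ∑ i ∈ Finset.Ici j, a i

/-- `q_j = a_j ^ 2 + a_{j+1} ^ 2 + … + a_p ^ 2`. -/
def tailSq {p : ℕ} (a : Fin p → ℕ) (j : Fin p) : ℕ := ∑ i ∈ Finset.Ici j, a i ^ 2

/-- The value: `0` if `n` is odd or `2 a_p > n`, and otherwise the minimum of `n - a_p` and of
`⌊(w_j ^ 2 - q_j) / (2 w_j - n)⌋` over all `j` with `2 w_j > n`. -/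
def value {p : ℕ} (a : Fin p → ℕ) : ℕ :=
  if Odd (order a) ∨ order a < 2 * largest a then 0
  else (Finset.univ.filter (fun j => order a < 2 * tail a j)).fold min (order a - largest a)
    (fun j => (tail a j ^ 2 - tailSq a j) / (2 * tail a j - order a))

theorem fib_card {p : ℕ} (a : Fin p → ℕ) (i : Fin p) :
    (fib (Sigma.fst : (Σ i, Fin (a i)) → Fin p) i).card = a i := by
  have : fib (Sigma.fst : (Σ i, Fin (a i)) → Fin p) i =
      Finset.univ.map (Function.Embedding.sigmaMk (β := fun i => Fin (a i)) i) := by
    ext ⟨j, x⟩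
    rw [mem_fib, Finset.mem_map]
    constructor
    · rintro rfl
      exact ⟨x, Finset.mem_univ _, rfl⟩
    · rintro ⟨y, _, h⟩
      simp only [Function.Embedding.sigmaMk_apply] at h
      exact (congrArg Sigma.fst h).symm
  rw [this, Finset.card_map, Finset.card_univ, Fintype.card_fin]

theorem card_V {p : ℕ} (a : Fin p → ℕ) : Fintype.card (Σ i, Fin (a i)) = order a := by
  simp [order]

/-- from 1-factors to involutions -/
theorem fam_of {p : ℕ} {a : Fin p → ℕ} {k : ℕ} (h : HasDisjointOneFactors (K a) k) :
    ∃ g, Fam (Sigma.fst : (Σ i, Fin (a i)) → Fin p) k g := by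
  obtain ⟨M, hM, hd⟩ := h
  have h1 : ∀ t v, ∃! w, (M t).Adj v w := fun t =>
    (SimpleGraph.Subgraph.isPerfectMatching_iff).1 (hM t)
  choose g hg1 hg2 using h1
  refine ⟨g, ⟨?_, ?_, ?_⟩⟩
  · intro t v
    exact (hg2 t (g t v) v ((hg1 t v).symm)).symm
  · intro t v h
    have h4 : (K a).Adj v (g t v) := (M t).adj_sub (hg1 t v)
    have h5 : v.1 ≠ (g t v).1 := h4
    exact h5 h.symm
  · intro s t v h
    by_contra hne
    have h1 := hd s t hne
    rw [Set.disjoint_left] at h1
    apply h1 (a := s(v, g s v))
    · exact (SimpleGraph.Subgraph.mem_edgeSet).2 (hg1 s v)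
    · rw [h]
      exact (SimpleGraph.Subgraph.mem_edgeSet).2 (hg1 t v)

/-- from relations to 1-factors -/
theorem of_rel {p : ℕ} {a : Fin p → ℕ} {k : ℕ} (M : Fin k → SimpleGraph (Σ i, Fin (a i)))
    (h1 : ∀ t v, ∃! w, (M t).Adj v w) (h2 : ∀ t v w, (M t).Adj v w → v.1 ≠ w.1)
    (h3 : ∀ s t, s ≠ t → ∀ v w, (M s).Adj v w → ¬ (M t).Adj v w) :
    HasDisjointOneFactors (K a) k := by
  refine ⟨fun t =>
    { verts := Set.univ
      Adj := (M t).Adj
      adj_sub := fun h => h2 t _ _ h
      edge_vert := fun _ => Set.mem_univ _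
      symm := (M t).symm }, ?_, ?_⟩
  · intro t
    rw [SimpleGraph.Subgraph.isPerfectMatching_iff]
    exact h1 t
  · intro s t hst
    rw [Set.disjoint_left]
    intro e he he'
    induction e with
    | _ v w =>
      rw [SimpleGraph.Subgraph.mem_edgeSet] at he he'
      exact h3 s t hst v w he he'

theorem tailSq_le {p : ℕ} (a : Fin p → ℕ) (j : Fin p) : tailSq a j ≤ tail a j ^ 2 := by
  unfold tail tailSq
  rw [sq (∑ i ∈ Finset.Ici j, a i), Finset.sum_mul]
  refine Finset.sum_le_sum fun i hi => ?_
  rw [sq]
  exact Nat.mul_le_mul_left _ (Finset.single_le_sum (f := a) (fun _ _ => Nat.zero_le _) hi)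

theorem arith_max (n c w : ℤ) (hc : 1 ≤ c) (h2 : 2 * c ≤ n) (hcw : c ≤ w) (hwn : w ≤ n) :
    (n - 1) * (2 * w - n) ≤ c * (w * (w - c)) := by
  rcases eq_or_lt_of_le hc with h | h
  · subst h
    rcases eq_or_lt_of_le hwn with h3 | h3
    · subst h3
      nlinarith
    · have : 0 ≤ (n - w) * (n - w - 1) := mul_nonneg (by linarith) (by linarith)
      nlinarith
  · have hc2 : 2 ≤ c := h
    rcases eq_or_lt_of_le hcw with h3 | h3
    · subst h3
      have : (n - 1) * (2 * c - n) ≤ 0 := mul_nonpos_of_nonneg_of_nonpos (by linarith) (by linarith)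
      simpa using this
    · rcases eq_or_lt_of_le (show c + 1 ≤ w from h3) with h4 | h4
      · subst h4
        rcases le_or_gt (2 * c + 2) n with h5 | h5
        · have : (n - 1) * (2 * (c + 1) - n) ≤ 0 :=
            mul_nonpos_of_nonneg_of_nonpos (by linarith) (by linarith)
          nlinarith
        · have : n = 2 * c ∨ n = 2 * c + 1 := by omega
          rcases this with h6 | h6
          · subst h6
            nlinarith [mul_nonneg (show 0 ≤ c - 1 by linarith) (show 0 ≤ c - 2 by linarith)]
          · subst h6
            nlinarith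
      · have h5 : c + 2 ≤ w := by omega
        have h6 : w ≤ c * (w - c) := by nlinarith
        have h7 : w ^ 2 ≤ c * (w * (w - c)) := by nlinarith
        rcases le_or_gt (2 * w - n) 0 with h8 | h8
        · have : (n - 1) * (2 * w - n) ≤ 0 := mul_nonpos_of_nonneg_of_nonpos (by linarith) h8
          nlinarith [sq_nonneg w]
        · nlinarith [sq_nonneg (n - w)]

/-- **The value of `μ` for all complete multipartite graphs.** -/
theorem result (p : ℕ) (hp : 2 ≤ p) (a : Fin p → ℕ) (hpos : ∀ i, 1 ≤ a i) (hmono : Monotone a) :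
    IsMu (K a) (value a) := by
  classical
  -- the largest part
  let z : Fin p := ⟨p - 1, by omega⟩
  have hz : ∀ i : Fin p, i ≤ z := fun i => by
    rw [Fin.le_def]
    have := i.2
    show (i : ℕ) ≤ p - 1
    omega
  have hlz : largest a = a z :=
    le_antisymm (Finset.sup_le fun i _ => hmono (hz i)) (Finset.le_sup (Finset.mem_univ z))
  have hfz : (fib (Sigma.fst : (Σ i, Fin (a i)) → Fin p) z).card = a z := fib_card a z
  constructor
  · -- existence
    show HasDisjointOneFactors (K a) (value a)
    by_cases hdeg : Odd (order a) ∨ order a < 2 * largest a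
    · have : value a = 0 := by
        unfold value
        rw [if_pos hdeg]
      rw [this]
      exact ⟨fun t => t.elim0, fun t => t.elim0, fun t => t.elim0⟩
    · obtain ⟨k, hk⟩ : ∃ k, k = value a := ⟨_, rfl⟩
      have hval : k = (Finset.univ.filter (fun j => order a < 2 * tail a j)).fold min
          (order a - largest a)
          (fun j => (tail a j ^ 2 - tailSq a j) / (2 * tail a j - order a)) := by
        rw [hk]
        unfold value
        rw [if_neg hdeg]
      push Not at hdeg
      obtain ⟨hev, h2c⟩ := hdeg
      rw [hlz] at h2c hval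
      have hle := (Finset.le_fold_min k).1 hval.le
      have hmax : ¬ (k + 1 ≤ order a - a z ∧ ∀ j ∈ Finset.univ.filter
          (fun j => order a < 2 * tail a j), k + 1 ≤
          (tail a j ^ 2 - tailSq a j) / (2 * tail a j - order a)) := by
        intro h
        have := (Finset.le_fold_min (k + 1)).2 h
        omega
      rw [← hk]
      obtain ⟨n, hn⟩ : ∃ n, n = order a := ⟨_, rfl⟩
      obtain ⟨c, hc⟩ : ∃ c, c = a z := ⟨_, rfl⟩
      rw [← hn, ← hc] at h2c hval hle hmax
      rw [← hn] at hev
      have hc1 : 1 ≤ c := by rw [hc]; exact hpos z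
      -- facts on tails
      have htz : ∀ j, c ≤ tail a j := by
        intro j
        rw [hc]
        exact Finset.single_le_sum (f := a) (fun _ _ => Nat.zero_le _) (Finset.mem_Ici.2 (hz j))
      have htn : ∀ j, tail a j ≤ n := by
        intro j
        rw [hn]
        exact Finset.sum_le_sum_of_subset (Finset.subset_univ _)
      have htq1 : ∀ j, tailSq a j ≤ c * tail a j := by
        intro j
        unfold tailSq tail
        rw [Finset.mul_sum]
        refine Finset.sum_le_sum fun i _ => ?_
        rw [sq, hc]
        exact Nat.mul_le_mul_right _ (hmono (hz i))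
      have htq2 : ∀ j, (tailSq a j : ℤ) ≤ c ^ 2 + ((tail a j : ℤ) - c) ^ 2 := by
        intro j
        have e1 : tailSq a j = c ^ 2 + ∑ i ∈ (Finset.Ici j).erase z, a i ^ 2 := by
          unfold tailSq
          rw [← Finset.add_sum_erase _ (fun i => a i ^ 2) (Finset.mem_Ici.2 (hz j)), hc]
        have e2 : tail a j = c + ∑ i ∈ (Finset.Ici j).erase z, a i := by
          unfold tail
          rw [← Finset.add_sum_erase _ a (Finset.mem_Ici.2 (hz j)), hc]
        have e3 : ∑ i ∈ (Finset.Ici j).erase z, a i ^ 2 ≤ (∑ i ∈ (Finset.Ici j).erase z, a i) ^ 2 := by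
          rw [sq (∑ i ∈ (Finset.Ici j).erase z, a i), Finset.sum_mul]
          refine Finset.sum_le_sum fun i hi => ?_
          rw [sq]
          exact Nat.mul_le_mul_left _ (Finset.single_le_sum (f := a) (fun _ _ => Nat.zero_le _) hi)
        rw [e1, e2]
        push_cast
        have e4 : ((∑ i ∈ (Finset.Ici j).erase z, a i ^ 2 : ℕ) : ℤ) ≤
            ((∑ i ∈ (Finset.Ici j).erase z, a i : ℕ) : ℤ) ^ 2 := by exact_mod_cast e3
        push_cast at e4
        linarith
      -- the inequality for tails
      have hineq : ∀ j, (k : ℤ) * (2 * tail a j - n) ≤ (tail a j : ℤ) ^ 2 - tailSq a j := by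
        intro j
        have h5 := tailSq_le a j
        rcases Nat.lt_or_ge n (2 * tail a j) with h | h
        · have h1 := hle.2 j (Finset.mem_filter.2 ⟨Finset.mem_univ _, h⟩)
          rw [Nat.le_div_iff_mul_le (by omega)] at h1
          zify [h5, h.le] at h1
          exact h1
        · have h1 : ((2 : ℤ) * tail a j - n) ≤ 0 := by
            have : (2 * tail a j : ℤ) ≤ n := by exact_mod_cast h
            linarith
          have h2 : (k : ℤ) * (2 * tail a j - n) ≤ 0 :=
            mul_nonpos_of_nonneg_of_nonpos (by positivity) h1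
          have h3 : (tailSq a j : ℤ) ≤ (tail a j : ℤ) ^ 2 := by exact_mod_cast h5
          linarith
      have hW := segments (fun i => (a i : ℤ)) n k (by positivity) (by positivity)
        (fun i => by exact_mod_cast hpos i) (fun i j hij => by
          have := hmono hij
          simp only
          exact_mod_cast this) (by
          intro W hup hne
          have hWI : W = Finset.Ici (W.min' hne) := by
            ext i
            rw [Finset.mem_Ici]
            exact ⟨fun hi => W.min'_le i hi, fun hi => hup _ (W.min'_mem hne) i hi⟩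
          have h1 := hineq (W.min' hne)
          unfold tail tailSq at h1
          rw [← hWI] at h1
          push_cast at h1
          exact h1)
      -- `c ≤ k`
      have hck : c ≤ k := by
        rw [hval, Finset.le_fold_min]
        refine ⟨by omega, fun j hj => ?_⟩
        rw [Finset.mem_filter] at hj
        rw [Nat.le_div_iff_mul_le (by omega)]
        have h5 := tailSq_le a j
        zify [h5, hj.2.le]
        have h6 := htq2 j
        have h7 : (2 * c : ℤ) ≤ n := by exact_mod_cast h2c
        have h8 : (0 : ℤ) ≤ c := by positivity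
        nlinarith
      -- `n ≤ k c + c`
      have hkc : n ≤ k * c + c := by
        by_contra hcon
        push Not at hcon
        apply hmax
        have hk1 : k + 1 ≤ n - c := by
          have : k ≤ k * c := Nat.le_mul_of_pos_right k hc1
          omega
        refine ⟨hk1, fun j hj => ?_⟩
        rw [Finset.mem_filter] at hj
        rw [Nat.le_div_iff_mul_le (by omega)]
        have h5 := tailSq_le a j
        zify [h5, hj.2.le]
        have h6 : (tailSq a j : ℤ) ≤ c * tail a j := by exact_mod_cast htq1 j
        have h7 := arith_max n c (tail a j) (by exact_mod_cast hc1) (by exact_mod_cast h2c)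
          (by exact_mod_cast htz j) (by exact_mod_cast htn j)
        have h8 : (k : ℤ) * c + c + 1 ≤ n := by exact_mod_cast hcon
        have h9 : (0 : ℤ) < 2 * tail a j - n := by
          have : (n : ℤ) < 2 * tail a j := by exact_mod_cast hj.2
          linarith
        have h10 : (c : ℤ) * ((k + 1) * (2 * tail a j - n)) ≤ c * (tail a j * (tail a j - c)) := by
          nlinarith
        have h11 : (0 : ℤ) < c := by exact_mod_cast hc1
        have h12 := le_of_mul_le_mul_left h10 h11
        nlinarith
      obtain ⟨M, hM1, hM2, hM3⟩ := construct (Sigma.fst : (Σ i, Fin (a i)) → Fin p) z k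
        (fun i => by rw [fib_card]; exact hpos i) (fun i => by
          rw [fib_card, fib_card]; exact hmono (hz i))
        (by rw [fib_card, card_V, ← hn, ← hc]; omega) (by rw [fib_card, ← hc]; exact hck)
        (by rw [fib_card, card_V, ← hn, ← hc]; exact hkc)
        (by rw [card_V, ← hn]; exact Nat.not_odd_iff_even.1 hev)
        (by rw [fib_card, card_V, ← hn, ← hc]; exact h2c)
        (by
          intro W _
          simp only [fib_card, card_V, ← hn]
          exact hW W)
      exact of_rel M hM1 hM2 hM3
  · -- maximality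
    intro k hk
    have hk' : HasDisjointOneFactors (K a) k := hk
    obtain ⟨g, hg⟩ := fam_of hk'
    rcases Nat.eq_zero_or_pos k with h0 | h0
    · rw [h0]
      exact Nat.zero_le _
    have hev := hg.even h0
    rw [card_V] at hev
    have h2 := hg.two h0 z
    rw [card_V] at h2
    have hfz' : (Finset.univ.filter (fun x : (Σ i, Fin (a i)) => x.1 = z)).card = a z := hfz
    rw [hfz'] at h2
    have h3 := hg.deg ⟨z, ⟨0, hpos z⟩⟩
    simp only at h3
    rw [hfz', card_V] at h3
    unfold value
    rw [if_neg]
    · rw [Finset.le_fold_min]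
      refine ⟨by rw [hlz]; omega, fun j hj => ?_⟩
      rw [Finset.mem_filter] at hj
      rw [Nat.le_div_iff_mul_le (by omega)]
      have h4 := hg.count (Finset.Ici j)
      rw [count_pairs, card_filter_mem, card_V] at h4
      simp only [fib_card] at h4
      have h5 := tailSq_le a j
      zify [h5, hj.2.le]
      unfold tail tailSq
      push_cast
      exact h4
    · rw [hlz]
      rintro (h | h)
      · exact (Nat.not_odd_iff_even.2 hev) h
      · omega

end Pool.Agent.Results.MP_6b0c0b_co.MuFormula
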